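import Pool.Agent.Helper42.TN.GoalsA

/-!
# Project TN (MP_a41896_nt), packet TN-VANN: a bad index kills the bracket
-/

set_option autoImplicit false

open MvPolynomial

namespace Pool.Agent.Helper50.TN

open Pool.Agent.Helper68.VN Pool.Agent.Helper42.TN

/-- regroup the sum over the families `p` according to `∑_j p j` -/
theorem regroup {σ : Type} [Fintype σ] [DecidableEq σ] {K : Type} [Field K] {X : Type}
    [Fintype X] (n M : ℕ) (c : X → K) (Γ : X → (Fin n → σ → ℕ) → K) (h : (σ → ℕ) → K) :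
    ∑ k ∈ box σ (2 * n * M), (∑ x : X, ∑ p ∈ Fintype.piFinset fun _ : Fin n => box σ (2 * M),
      if (fun i => ∑ j, p j i) = k then c x * Γ x p else 0) * h k =
    ∑ x : X, c x * ∑ p ∈ Fintype.piFinset fun _ : Fin n => box σ (2 * M),
      Γ x p * h (fun i => ∑ j, p j i) := by
  classical
  have e1 : ∀ k ∈ box σ (2 * n * M),
      (∑ x : X, ∑ p ∈ Fintype.piFinset fun _ : Fin n => box σ (2 * M),
        if (fun i => ∑ j, p j i) = k then c x * Γ x p else 0) * h k =
      ∑ x : X, ∑ p ∈ Fintype.piFinset fun _ : Fin n => box σ (2 * M),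
        if (fun i => ∑ j, p j i) = k then c x * Γ x p * h k else 0 := by
    intro k _
    rw [Finset.sum_mul]
    refine Finset.sum_congr rfl fun x _ => ?_
    rw [Finset.sum_mul]
    refine Finset.sum_congr rfl fun p _ => ?_
    split_ifs with hh
    · rfl
    · rw [zero_mul]
  rw [Finset.sum_congr rfl e1, Finset.sum_comm]
  refine Finset.sum_congr rfl fun x _ => ?_
  rw [Finset.sum_comm, Finset.mul_sum]
  refine Finset.sum_congr rfl fun p hp => ?_
  have hm : (fun i => ∑ j, p j i) ∈ box σ (2 * n * M) := by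
    unfold box at hp ⊢
    rw [Fintype.mem_piFinset] at hp ⊢
    intro i
    have h1 : ∀ j ∈ (Finset.univ : Finset (Fin n)), p j i ≤ 2 * M := by
      intro j _
      have h2 := hp j
      rw [Fintype.mem_piFinset] at h2
      have h3 := h2 i
      rw [Finset.mem_range] at h3
      omega
    have h4 := Finset.sum_le_sum h1
    rw [Finset.sum_const, Finset.card_univ, Fintype.card_fin, smul_eq_mul] at h4
    rw [Finset.mem_range]
    have h5 : n * (2 * M) = 2 * n * M := by ring
    rw [h5] at h4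
    exact Nat.lt_succ_of_le h4
  rw [Finset.sum_ite_eq (box σ (2 * n * M)) (fun i => ∑ j, p j i)
    (fun k => c x * Γ x p * h k), if_pos hm, mul_assoc]

/-- **VANN** -/
theorem t_VANN : VANN := by
  classical
  intro K _ _ σ _ _ n M k0 e S T gr r U ν x0 H hR cc hC lam μ t hj
  obtain ⟨Γ, hΓ⟩ : ∃ Γ : Ix σ n M 1 e → (Fin n → σ → ℕ) → K, ∀ α p, Γ α p =
    ∏ j, Gam S M (e j) (r j (t j)) (lam j) (μ j) (p j) (α.1 j) := ⟨_, fun _ _ => rfl⟩
  have hB : BrB S n M 1 e T r cc x0 lam μ t = ∑ α : Ix σ n M 1 e, cc α *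
      ∑ p ∈ Fintype.piFinset fun _ : Fin n => box σ (2 * M),
        Γ α p * ∏ i, x0 i ^ (∑ j, p j i) := by
    unfold BrB
    refine Finset.sum_congr rfl fun α _ => ?_
    have h1 : ∏ i, x0 i ^ (α.2 i).val = 1 := by
      refine Finset.prod_eq_one fun i _ => ?_
      have h2 : (α.2 i).val = 0 := by
        have := (α.2 i).isLt
        omega
      rw [h2, pow_zero]
    rw [h1, mul_one, Finset.prod_univ_sum]
    congr 1
    refine Finset.sum_congr rfl fun p _ => ?_
    rw [Finset.prod_mul_distrib, hΓ]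
    congr 1
    rw [Finset.prod_comm]
    refine Finset.prod_congr rfl fun i _ => ?_
    rw [Finset.prod_pow_eq_pow_sum]
  rw [hB, ← regroup n M cc Γ (fun k => ∏ i, x0 i ^ k i)]
  refine hR.red _ fun u => ?_
  have h1 := regroup n M cc Γ (ν u)
  have h2 := hC lam μ t hj u
  have h3 : ∑ α : Ix σ n M 1 e, cc α * ∑ p ∈ Fintype.piFinset fun _ : Fin n => box σ (2 * M),
      Γ α p * ν u (fun i => ∑ j, p j i) = 0 := by
    rw [← h2]
    refine Finset.sum_congr rfl fun α _ => ?_
    congr 1
    refine Finset.sum_congr rfl fun p _ => ?_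
    rw [hΓ]
  rw [h3] at h1
  exact (Finset.sum_congr rfl fun k _ => mul_comm _ _).trans h1

end Pool.Agent.Helper50.TN
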