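import Pool.Agent.Helper92.TN.GoalsH
import Pool.Agent.Helper73.T3.ELM

/-!
PROJECT TN (MP_a41896_nt), packet JREL (helper50): `w + 1` algebraic functions of `w` variables.
-/

set_option autoImplicit false

noncomputable section

open MvPolynomial
open scoped Pointwise

namespace Pool.Agent.Helper50.TN.JREL

open Pool.Agent.Helper92.TN
open Pool.Agent.Helper73.T3.ELM (A1 pow_mem_A1 core pow_le_span)

variable {κ L : Type} [Field κ] [Field L] [Algebra κ L]

/-- `S` is contained in the span of at most `n` elements -/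
def HG (S : Submodule κ L) (n : ℕ) : Prop :=
  ∃ T : Finset L, T.card ≤ n ∧ S ≤ Submodule.span κ (T : Set L)

theorem hg_mono {S : Submodule κ L} {n m : ℕ} (h : HG S n) (hnm : n ≤ m) : HG S m := by
  obtain ⟨T, h1, h2⟩ := h
  exact ⟨T, h1.trans hnm, h2⟩

theorem hg_mul {S S' : Submodule κ L} {n m : ℕ} (h : HG S n) (h' : HG S' m) :
    HG (S * S') (n * m) := by
  classical
  obtain ⟨T, h1, h2⟩ := h
  obtain ⟨T', h1', h2'⟩ := h'
  refine ⟨T * T', (Finset.card_mul_le).trans (Nat.mul_le_mul h1 h1'), ?_⟩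
  rw [Finset.coe_mul, ← Submodule.span_mul_span]
  exact mul_le_mul' h2 h2'

theorem hg_one : HG (1 : Submodule κ L) 1 := by
  refine ⟨{1}, by simp, ?_⟩
  rw [Submodule.one_eq_span]
  simp

theorem hg_prod {α : Type} (s : Finset α) (S : α → Submodule κ L) (n : α → ℕ)
    (h : ∀ i ∈ s, HG (S i) (n i)) : HG (∏ i ∈ s, S i) (∏ i ∈ s, n i) := by
  classical
  induction s using Finset.induction_on with
  | empty => simpa using hg_one
  | insert a s ha ih =>
    rw [Finset.prod_insert ha, Finset.prod_insert ha]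
    exact hg_mul (h a (Finset.mem_insert_self a s))
      (ih fun i hi => h i (Finset.mem_insert_of_mem hi))

theorem hg_range {n : ℕ} (f : Fin n → L) : HG (Submodule.span κ (Set.range f)) n := by
  classical
  refine ⟨Finset.univ.image f, Finset.card_image_le.trans (by simp), ?_⟩
  refine Submodule.span_mono ?_
  rintro _ ⟨i, rfl⟩
  simp

theorem hg_A1 (x : L) (N : ℕ) : HG ((A1 κ x) ^ N) (N + 1) := by
  obtain ⟨T, h1, h2⟩ := hg_range (κ := κ) (fun r : Fin (N + 1) => x ^ (r : ℕ))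
  exact ⟨T, h1, (pow_le_span x N).trans h2⟩

theorem prod_mem_prod {α : Type} (s : Finset α) (S : α → Submodule κ L) (x : α → L)
    (h : ∀ i ∈ s, x i ∈ S i) : ∏ i ∈ s, x i ∈ ∏ i ∈ s, S i := by
  classical
  induction s using Finset.induction_on with
  | empty => simp
  | insert a s ha ih =>
    rw [Finset.prod_insert ha, Finset.prod_insert ha]
    exact Submodule.mul_mem_mul (h a (Finset.mem_insert_self a s))
      (ih fun i hi => h i (Finset.mem_insert_of_mem hi))

/-- the span of the `z^δ`, `δ ≤ 1` -/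
def ZZ (κ : Type) {L ι : Type} [Field κ] [Field L] [Algebra κ L] [Fintype ι] (z : ι → L) :
    Submodule κ L := ∏ i, A1 κ (z i)

theorem mon_mem {ι : Type} [Fintype ι] (z : ι → L) (m : ι → ℕ) (N : ℕ) (h : ∀ i, m i ≤ N) :
    ∏ i, z i ^ m i ∈ (ZZ κ z) ^ N := by
  unfold ZZ
  rw [← Finset.prod_pow]
  exact prod_mem_prod _ _ _ fun i _ => pow_mem_A1 (z i) _ _ (h i)

theorem hg_ZZ {ι : Type} [Fintype ι] (z : ι → L) (N : ℕ) :
    HG ((ZZ κ z) ^ N) ((N + 1) ^ Fintype.card ι) := by
  unfold ZZ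
  rw [← Finset.prod_pow]
  have h := hg_prod (κ := κ) Finset.univ (fun i => (A1 κ (z i)) ^ N) (fun _ => N + 1)
    (fun i _ => hg_A1 (z i) N)
  rwa [Finset.prod_const, Finset.card_univ] at h

theorem rw_core {ι : Type} [Fintype ι] (z : ι → L) (f : L) (d : ℕ) (hz : AlgebraicIndependent κ z)
    (h : Rw κ z f d) :
    ∃ (u : ℕ) (l : L), u ≤ d ∧ l ≠ 0 ∧ ∀ (M : ℕ) (p : L), p ∈ (A1 κ f) ^ M →
      l ^ M * p ∈ ((ZZ κ z) ^ d) ^ M * Submodule.span κ (Set.range fun i : Fin u => f ^ (i : ℕ)) := by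
  classical
  obtain ⟨P, hP, hdeg, hP0⟩ := h
  have hdeg' : ∀ o, ∀ m ∈ P.support, m o ≤ d := by
    intro o
    have := hdeg o
    rwa [degreeOf_le_iff] at this
  refine core ((ZZ κ z) ^ d) f d
    (fun i => ∑ m ∈ P.support with m none = i,
      algebraMap κ L (coeff m P) * ∏ j, z j ^ (m (some j))) ?_ ?_ ?_
  · intro i
    refine Submodule.sum_mem _ fun m hm => ?_
    rw [← Algebra.smul_def]
    refine Submodule.smul_mem _ _ (mon_mem z (fun j => m (some j)) d fun j => ?_)
    exact hdeg' (some j) m (Finset.mem_filter.1 hm).1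
  · obtain ⟨m0, hm0⟩ := support_nonempty.2 hP
    refine ⟨m0 none, hdeg' none m0 hm0, ?_⟩
    intro hcon
    obtain ⟨p, hp⟩ : ∃ p : MvPolynomial ι κ, p = ∑ m ∈ P.support with m none = m0 none,
      monomial m.some (coeff m P) := ⟨_, rfl⟩
    have hp1 : aeval z p = 0 := by
      rw [← hcon, hp, map_sum]
      refine Finset.sum_congr rfl fun m _ => ?_
      rw [aeval_monomial, Finsupp.prod_fintype _ _ (fun i => pow_zero _)]
      simp only [Finsupp.some_apply]
    have hp0 : p = 0 := hz.eq_zero_of_aeval_eq_zero p hp1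
    have h2 := congrArg (fun q => coeff m0.some q) hp0
    simp only [hp, coeff_sum, coeff_monomial, coeff_zero] at h2
    have h3 : ∀ m ∈ ({m ∈ P.support | m none = m0 none} : Finset (Option ι →₀ ℕ)), m ≠ m0 →
        (if m.some = m0.some then coeff m P else 0) = 0 := by
      intro m hm hne
      rw [if_neg]
      intro h3
      apply hne
      ext o
      cases o with
      | none => exact (Finset.mem_filter.1 hm).2
      | some j =>
        have h4 := congrArg (fun g : ι →₀ ℕ => g j) h3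
        simpa using h4
    have hmm : m0 ∈ ({m ∈ P.support | m none = m0 none} : Finset (Option ι →₀ ℕ)) :=
      Finset.mem_filter.2 ⟨hm0, rfl⟩
    rw [Finset.sum_eq_single_of_mem m0 hmm h3, if_pos rfl] at h2
    exact (mem_support_iff.1 hm0) h2
  · rw [← hP0, aeval_def, eval₂_eq']
    rw [← Finset.sum_fiberwise_of_maps_to (s := P.support) (t := Finset.range (d + 1))
      (g := fun m => m none)
      (fun m hm => Finset.mem_range.2 (Nat.lt_succ_of_le (hdeg' none m hm)))]
    refine Finset.sum_congr rfl fun i _ => ?_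
    rw [Finset.sum_mul]
    refine Finset.sum_congr rfl fun m hm => ?_
    rw [Fintype.prod_option]
    simp only [Option.elim_none, Option.elim_some]
    rw [(Finset.mem_filter.1 hm).2]
    ring

theorem fin_rel {α : Type} [Fintype α] (h : α → L) (D : L) (hD0 : D ≠ 0) (A n : ℕ)
    (S : Submodule κ L) (hS : HG S n) (hcard : n < (A + 1) ^ Fintype.card α)
    (hmem : ∀ j : α → ℕ, (∀ o, j o ≤ A) → D * ∏ o, h o ^ j o ∈ S) :
    ∃ R : MvPolynomial α κ, R ≠ 0 ∧ (∀ o, degreeOf o R ≤ A) ∧ aeval h R = 0 := by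
  classical
  obtain ⟨T, hT1, hT2⟩ := hS
  have hnli : ¬ LinearIndependent κ
      (fun j : α → Fin (A + 1) => D * ∏ o, h o ^ ((j o : Fin (A + 1)) : ℕ)) := by
    intro hli
    have h1 := linearIndependent_le_span' _ hli (T : Set L) (by
      rintro _ ⟨j, rfl⟩
      exact hT2 (hmem (fun o => ((j o : Fin (A + 1)) : ℕ)) fun o => Nat.lt_succ_iff.1 (j o).2))
    rw [Cardinal.mk_fintype] at h1
    have h2 : Fintype.card (α → Fin (A + 1)) ≤ Fintype.card (T : Set L) := by exact_mod_cast h1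
    have h3 : Fintype.card (T : Set L) = T.card := by simp
    rw [h3, Fintype.card_fun, Fintype.card_fin] at h2
    omega
  obtain ⟨g, hg, ⟨j0, hj0⟩⟩ := Fintype.not_linearIndependent_iff.1 hnli
  obtain ⟨ee, hee⟩ : ∃ ee : (α → Fin (A + 1)) → (α →₀ ℕ), ∀ j o, ee j o = (j o : ℕ) :=
    ⟨fun j => Finsupp.equivFunOnFinite.symm fun o => (j o : ℕ), fun j o => by simp⟩
  have hinj : ∀ j j', ee j = ee j' → j = j' := by
    intro j j' h1
    funext o
    have h2 := congrArg (fun m : α →₀ ℕ => m o) h1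
    simp only [hee] at h2
    exact Fin.ext h2
  obtain ⟨P, hPdef⟩ : ∃ P : MvPolynomial α κ, P = ∑ j : α → Fin (A + 1), monomial (ee j) (g j) :=
    ⟨_, rfl⟩
  have hcf : ∀ m, coeff m P = ∑ j : α → Fin (A + 1), if ee j = m then g j else 0 := by
    intro m
    rw [hPdef, coeff_sum]
    exact Finset.sum_congr rfl fun j _ => coeff_monomial _ _ _
  refine ⟨P, ?_, ?_, ?_⟩
  · intro hP
    have h1 := hcf (ee j0)
    rw [hP, coeff_zero, Finset.sum_eq_single j0] at h1
    · rw [if_pos rfl] at h1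
      exact hj0 h1.symm
    · intro j _ hne
      rw [if_neg]
      intro h2
      exact hne (hinj _ _ h2)
    · intro h
      exact absurd (Finset.mem_univ _) h
  · intro o
    rw [degreeOf_le_iff]
    intro m hm
    have hm' := mem_support_iff.1 hm
    rw [hcf] at hm'
    obtain ⟨j, -, hj⟩ := Finset.exists_ne_zero_of_sum_ne_zero hm'
    have hjm : ee j = m := by
      by_contra hcon
      exact hj (if_neg hcon)
    rw [← hjm, hee]
    exact Nat.lt_succ_iff.1 (j o).2
  · have h1 : aeval h P = ∑ j : α → Fin (A + 1), g j • ∏ o, h o ^ ((j o : Fin (A + 1)) : ℕ) := by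
      rw [hPdef, map_sum]
      refine Finset.sum_congr rfl fun j _ => ?_
      rw [aeval_monomial, Algebra.smul_def, Finsupp.prod_fintype _ _ (fun i => pow_zero _)]
      simp only [hee]
    have h2 : D * aeval h P = 0 := by
      rw [h1, Finset.mul_sum, ← hg]
      refine Finset.sum_congr rfl fun j _ => ?_
      rw [mul_smul_comm]
    exact (mul_eq_zero.1 h2).resolve_left hD0

theorem count (w d A : ℕ) (hA : A = d ^ (w + 1) * ((w + 1) * d + 1) ^ w) :
    (d * A * (w + 1) + 1) ^ w * d ^ (w + 1) < (A + 1) ^ (w + 1) := by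
  have h1 : d * A * (w + 1) + 1 ≤ ((w + 1) * d + 1) * (A + 1) := by
    have : ((w + 1) * d + 1) * (A + 1) = d * A * (w + 1) + 1 + ((w + 1) * d + A) := by ring
    omega
  have h2 : (d * A * (w + 1) + 1) ^ w ≤ ((w + 1) * d + 1) ^ w * (A + 1) ^ w := by
    rw [← mul_pow]
    exact Nat.pow_le_pow_left h1 w
  have h3 : (d * A * (w + 1) + 1) ^ w * d ^ (w + 1) ≤ A * (A + 1) ^ w := by
    calc (d * A * (w + 1) + 1) ^ w * d ^ (w + 1)
        ≤ ((w + 1) * d + 1) ^ w * (A + 1) ^ w * d ^ (w + 1) := Nat.mul_le_mul_right _ h2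
      _ = (d ^ (w + 1) * ((w + 1) * d + 1) ^ w) * (A + 1) ^ w := by ring
      _ = A * (A + 1) ^ w := by rw [← hA]
  refine lt_of_le_of_lt h3 ?_
  rw [pow_succ', ]
  exact Nat.mul_lt_mul_of_pos_right (Nat.lt_succ_self A) (by positivity)

theorem t : Pool.Agent.Helper92.TN.JREL := by
  classical
  intro w d
  refine ⟨d ^ (w + 1) * ((w + 1) * d + 1) ^ w, ?_⟩
  intro κ L ι _ _ _ _ z h hcard hz hrel
  obtain ⟨A, hA⟩ : ∃ A, A = d ^ (w + 1) * ((w + 1) * d + 1) ^ w := ⟨_, rfl⟩
  rw [← hA]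
  choose u l hu hl H using fun o => rw_core z (h o) d hz (hrel o)
  obtain ⟨W, hW⟩ : ∃ W : Option (Fin w) → Submodule κ L, ∀ o, W o =
    Submodule.span κ (Set.range fun i : Fin (u o) => (h o) ^ (i : ℕ)) := ⟨_, fun _ => rfl⟩
  have hco : Fintype.card (Option (Fin w)) = w + 1 := by simp
  refine fin_rel h ((∏ o, l o) ^ A) (pow_ne_zero _ (Finset.prod_ne_zero_iff.2 fun o _ => hl o)) A
    ((d * A * (w + 1) + 1) ^ w * d ^ (w + 1)) ((ZZ κ z) ^ (d * A * (w + 1)) * ∏ o, W o) ?_ ?_ ?_
  · refine hg_mul ?_ ?_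
    · have h1 := hg_ZZ (κ := κ) z (d * A * (w + 1))
      rwa [hcard] at h1
    · have h1 := hg_prod (κ := κ) Finset.univ W (fun _ => d) (fun o _ => by
        rw [hW o]
        exact hg_mono (hg_range _) (hu o))
      rwa [Finset.prod_const, Finset.card_univ, hco] at h1
  · rw [hco]
    exact count w d A hA
  · intro j hj
    have h1 : (∏ o, l o) ^ A * ∏ o, h o ^ j o = ∏ o, (l o ^ A * h o ^ j o) := by
      rw [Finset.prod_mul_distrib, Finset.prod_pow]
    rw [h1]
    have h2 : ∏ o, (l o ^ A * h o ^ j o) ∈ ∏ o, (((ZZ κ z) ^ d) ^ A * W o) := by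
      refine prod_mem_prod _ _ _ fun o _ => ?_
      rw [hW o]
      exact H o A _ (pow_mem_A1 (h o) _ _ (hj o))
    have h3 : ∏ o, (((ZZ κ z) ^ d) ^ A * W o) = (ZZ κ z) ^ (d * A * (w + 1)) * ∏ o, W o := by
      rw [Finset.prod_mul_distrib, Finset.prod_const, Finset.card_univ, hco, ← pow_mul, ← pow_mul,
        ← mul_assoc]
    rw [h3] at h2
    exact h2

end Pool.Agent.Helper50.TN.JREL
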